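import Pool.Agent.Helper74_RL.Stmts

/-!
# LIM: a locally uniformly convergent subsequence of the distances
-/

noncomputable section

open scoped Topology
open Set Metric Filter

namespace Pool.Agent.RLim.H53

open Pool.Agent.RLim

theorem lim (hP : PrjStmt) (hT : TbdStmt) : LimStmt := by
  intro D c C hC hB
  obtain ⟨p1, -, p3, -⟩ := hP D
  -- the values
  have hlow : ∀ j y y', 0 ≤ dd D j (prj D j y) (prj D j y') := by
    intro j y y'
    refine le_trans ?_ ((hB j).low _ _)
    exact mul_nonneg (hB j).c_pos.le dist_nonneg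
  have hup : ∀ j y y', dd D j (prj D j y) (prj D j y') ≤ C * dist y y' := by
    intro j y y'
    refine ((hB j).up _ _).trans ?_
    exact mul_le_mul_of_nonneg_left (p1 j y y') hC.le
  set U : Ultrafilter ℕ := hyperfilter ℕ with hU
  have hUtop : (U : Filter ℕ) ≤ atTop := by
    rw [← Nat.cofinite_eq_atTop]
    exact hyperfilter_le_cofinite
  have hex : ∀ y y' : BlI D, ∃ l : ℝ, Tendsto (fun j => dd D j (prj D j y) (prj D j y')) U (𝓝 l) := by
    intro y y'
    have hK : IsCompact (Icc (0 : ℝ) (C * dist y y')) := isCompact_Icc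
    have h1 : ↑(U.map fun j => dd D j (prj D j y) (prj D j y')) ≤
        𝓟 (Icc (0 : ℝ) (C * dist y y')) := by
      rw [le_principal_iff]
      show _ ∈ Filter.map (fun j => dd D j (prj D j y) (prj D j y')) (U : Filter ℕ)
      rw [Filter.mem_map]
      exact Filter.Eventually.of_forall fun j => ⟨hlow j y y', hup j y y'⟩
    obtain ⟨l, _, hl⟩ := hK.ultrafilter_le_nhds _ h1
    exact ⟨l, hl⟩
  choose d hd using hex
  have hbil : IsBil d c C := by
    refine ⟨(hB 0).c_pos, fun x => ?_, fun x y => ?_, fun x y z => ?_, fun x y => ?_,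
      fun x y => ?_⟩
    · refine tendsto_nhds_unique (hd x x) ?_
      have : (fun j => dd D j (prj D j x) (prj D j x)) = fun _ => (0 : ℝ) := by
        funext j
        exact (hB j).self _
      rw [this]
      exact tendsto_const_nhds
    · refine tendsto_nhds_unique (hd x y) ?_
      have : (fun j => dd D j (prj D j x) (prj D j y)) =
          fun j => dd D j (prj D j y) (prj D j x) := by
        funext j
        exact (hB j).symm _ _
      rw [this]
      exact hd y x
    · exact le_of_tendsto_of_tendsto' (hd x z) ((hd x y).add (hd y z)) fun j => (hB j).tri _ _ _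
    · -- lower bound
      refine le_of_forall_pos_le_add fun ε hε => ?_
      have hε' : 0 < ε / c := div_pos hε (hB 0).c_pos
      obtain ⟨N, hN⟩ := p3 (ε / c) hε'
      have h1 : ∀ᶠ j in (U : Filter ℕ), c * dist x y - ε ≤ dd D j (prj D j x) (prj D j y) := by
        refine hUtop ?_
        filter_upwards [eventually_ge_atTop N] with j hj
        have h2 := hN j hj x y
        have h3 := (hB j).low (prj D j x) (prj D j y)
        have hc := (hB 0).c_pos
        have h4 : c * dist x y ≤ c * (dist (prj D j x) (prj D j y) + ε / c) :=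
          mul_le_mul_of_nonneg_left h2 hc.le
        have h5 : c * (dist (prj D j x) (prj D j y) + ε / c) =
            c * dist (prj D j x) (prj D j y) + ε := by
          rw [mul_add, mul_div_cancel₀ _ hc.ne']
        linarith
      have h2 := ge_of_tendsto (hd x y) h1
      linarith
    · exact le_of_tendsto' (hd x y) fun j => hup j x y
  -- uniform convergence along `U`
  have hunif : ∀ R ε : ℝ, 0 < ε → ∀ᶠ j in (U : Filter ℕ), ∀ y y' : BlI D, ‖y.1.1‖ ≤ R →
      ‖y'.1.1‖ ≤ R → |dd D j (prj D j y) (prj D j y') - d y y'| < ε := by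
    intro R ε hε
    set δ : ℝ := ε / (8 * C) with hδ
    have hδ0 : 0 < δ := by positivity
    obtain ⟨F, hF⟩ := hT D R δ hδ0
    have h1 : ∀ᶠ j in (U : Filter ℕ), ∀ a ∈ F, ∀ b ∈ F,
        |dd D j (prj D j a) (prj D j b) - d a b| < ε / 2 := by
      rw [Filter.eventually_all_finset]
      intro a _
      rw [Filter.eventually_all_finset]
      intro b _
      have := (Metric.tendsto_nhds.1 (hd a b)) (ε / 2) (by positivity)
      filter_upwards [this] with j hj
      rwa [Real.dist_eq] at hj
    filter_upwards [h1] with j hj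
    intro y y' hy hy'
    obtain ⟨a, ha, hya⟩ := hF y hy
    obtain ⟨b, hb, hyb⟩ := hF y' hy'
    have h2 := hj a ha b hb
    have e1 : C * dist y a ≤ ε / 8 := by
      have : C * dist y a ≤ C * δ := mul_le_mul_of_nonneg_left hya.le hC.le
      refine this.trans (le_of_eq ?_)
      rw [hδ]
      field_simp
    have e2 : C * dist y' b ≤ ε / 8 := by
      have : C * dist y' b ≤ C * δ := mul_le_mul_of_nonneg_left hyb.le hC.le
      refine this.trans (le_of_eq ?_)
      rw [hδ]
      field_simp
    have key : ∀ (f : BlI D → BlI D → ℝ), (∀ x z, f x z = f z x) →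
        (∀ x z u, f x u ≤ f x z + f z u) → (∀ x z, f x z ≤ C * dist x z) →
        |f y y' - f a b| ≤ ε / 4 := by
      intro f fs ft fu
      have g1 := ft y a y'
      have g2 := ft a b y'
      have g3 := ft a y b
      have g4 := ft y y' b
      have g5 := fu y a
      have g6 := fu y' b
      rw [fs b y'] at g2
      rw [fs a y] at g3
      rw [abs_le]
      constructor <;> linarith
    have k1 := key d hbil.symm hbil.tri hbil.up
    have k2 := key (fun x z => dd D j (prj D j x) (prj D j z)) (fun x z => (hB j).symm _ _)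
      (fun x z u => (hB j).tri _ _ _) (fun x z => hup j x z)
    rw [abs_le] at k1 k2
    rw [abs_lt] at h2 ⊢
    constructor
    · linarith [k1.1, k1.2, k2.1, k2.2, h2.1, h2.2]
    · linarith [k1.1, k1.2, k2.1, k2.2, h2.1, h2.2]
  -- the subsequence
  have hfreq : ∀ n : ℕ, ∃ᶠ j in atTop, ∀ y y' : BlI D, ‖y.1.1‖ ≤ (n : ℝ) →
      ‖y'.1.1‖ ≤ (n : ℝ) → |dd D j (prj D j y) (prj D j y') - d y y'| < 1 / ((n : ℝ) + 1) := by
    intro n hn
    have h1 := hunif n (1 / ((n : ℝ) + 1)) (by positivity)
    have h2 := hUtop hn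
    obtain ⟨j, h3, h4⟩ := (h1.and h2).exists
    exact h4 h3
  obtain ⟨σ, hσ, hσ'⟩ := extraction_forall_of_frequently hfreq
  refine ⟨σ, d, hσ, hbil, fun R ε hε => ?_⟩
  obtain ⟨N₁, hN₁⟩ := exists_nat_ge R
  obtain ⟨N₂, hN₂⟩ := exists_nat_one_div_lt hε
  refine ⟨max N₁ N₂, fun i hi y y' hy hy' => ?_⟩
  have h1 : R ≤ (i : ℝ) := hN₁.trans (by exact_mod_cast (le_max_left _ _).trans hi)
  have h2 := hσ' i y y' (hy.trans h1) (hy'.trans h1)
  refine h2.trans (lt_of_le_of_lt ?_ hN₂)
  have h3 : (N₂ : ℝ) ≤ i := by exact_mod_cast (le_max_right _ _).trans hi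
  exact one_div_le_one_div_of_le (by positivity) (by linarith)

end Pool.Agent.RLim.H53
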